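import Mathlib

/-!
Every SFT that is avo for convex sets is SFT on convex sets.
-/

namespace Pool.Agent.Results.MP_d66889_lc.ConvexAvoshifts

variable {d : ℕ} {A : Type}

/-- The lattice `ℤ^d`. -/
abbrev V (d : ℕ) := Fin d → ℤ

/-- Configurations. -/
abbrev Cfg (d : ℕ) (A : Type) := V d → A

/-- A pattern: a finite support and a colouring of it. -/
structure Pattern (d : ℕ) (A : Type) where
  D : Finset (V d)
  p : D → A

/-- The translate of `q` by `u` occurs in the configuration `x`. -/
def OccursIn (q : Pattern d A) (u : V d) (x : Cfg d A) : Prop :=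
  ∀ v : q.D, x (v.1 + u) = q.p v

/-- The translate of `q` by `u` has its support inside the support of `r` and occurs in `r`. -/
def OccursInPattern (q : Pattern d A) (u : V d) (r : Pattern d A) : Prop :=
  ∀ v : q.D, ∃ h : v.1 + u ∈ r.D, r.p ⟨v.1 + u, h⟩ = q.p v

/-- `X_F`. -/
def XF (F : Set (Pattern d A)) : Set (Cfg d A) := {x | ∀ q ∈ F, ∀ u, ¬ OccursIn q u x}

/-- `X` is a subshift of finite type. -/
def IsSFT (X : Set (Cfg d A)) : Prop := ∃ F : Set (Pattern d A), F.Finite ∧ X = XF F

/-- `p = x|_D` for some `x ∈ X`. -/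
def GloballyValid (X : Set (Cfg d A)) (p : Pattern d A) : Prop :=
  ∃ x ∈ X, ∀ v : p.D, x v.1 = p.p v

/-- No translate of any `q ∈ F` with support inside the support of `p` occurs in `p`. -/
def LocallyValid (F : Set (Pattern d A)) (p : Pattern d A) : Prop :=
  ∀ q ∈ F, ∀ u, ¬ OccursInPattern q u p

/-- The inclusion `ℤ^d → ℝ^d`. -/
def toR (v : V d) : Fin d → ℝ := fun i => (v i : ℝ)

/-- `C = conv(C) ∩ ℤ^d`. -/
def IsConvex (C : Set (V d)) : Prop := ∀ v : V d, toR v ∈ convexHull ℝ (toR '' C) ↔ v ∈ C

/-- `E_X(x, D, v)`. -/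
def Ext (X : Set (Cfg d A)) (x : Cfg d A) (D : Set (V d)) (v : V d) : Set A :=
  {a | ∃ y ∈ X, (∀ w ∈ D, y w = x w) ∧ y v = a}

/-- `X` is avo for convex sets. -/
def AvoConvex (X : Set (Cfg d A)) : Prop :=
  ∃ N : Finset (V d), ∀ (C : Set (V d)) (v : V d), C.Finite → IsConvex C → v ∉ C →
    IsConvex (C ∪ {v}) → ∀ x ∈ X, Ext X x C v = Ext X x (C ∩ {w | ∃ n ∈ N, w = v + n}) v

/-- `X` is SFT on convex sets. -/
def SFTOnConvex (X : Set (Cfg d A)) : Prop :=
  ∃ F : Set (Pattern d A), F.Finite ∧ X = XF F ∧
    ∀ p : Pattern d A, IsConvex (p.D : Set (V d)) → LocallyValid F p → GloballyValid X p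

theorem toR_inj : Function.Injective (toR (d := d)) := by
  intro v w h
  funext i
  have h1 : (v i : ℝ) = (w i : ℝ) := congrFun h i
  exact_mod_cast h1

/-- A nonempty finite convex set has a point whose removal leaves a convex set. -/
theorem exists_remove (C : Set (V d)) (hf : C.Finite) (hC : IsConvex C) (hne : C.Nonempty) :
    ∃ v ∈ C, IsConvex (C \ {v}) := by
  have hcomp : IsCompact (convexHull ℝ (toR '' C)) := (hf.image _).isCompact_convexHull (𝕜 := ℝ)
  have hne' : (convexHull ℝ (toR '' C)).Nonempty := (hne.image _).convexHull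
  obtain ⟨e, he⟩ := hcomp.extremePoints_nonempty hne'
  obtain ⟨v, hv, rfl⟩ := extremePoints_convexHull_subset he
  refine ⟨v, hv, fun w => ⟨fun hw => ?_, fun hw => subset_convexHull ℝ _ ⟨w, hw, rfl⟩⟩⟩
  have hsub : convexHull ℝ (toR '' (C \ {v})) ⊆ convexHull ℝ (toR '' C) :=
    convexHull_mono (Set.image_mono Set.sdiff_subset)
  refine ⟨(hC w).1 (hsub hw), ?_⟩
  rintro rfl
  have h1 := inter_extremePoints_subset_extremePoints_of_subset hsub ⟨hw, he⟩
  obtain ⟨u, hu, huw⟩ := extremePoints_convexHull_subset h1
  exact hu.2 (toR_inj huw)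

theorem shift_mem {F : Set (Pattern d A)} {x : Cfg d A} (hx : x ∈ XF F) (u : V d) :
    (fun v => x (v + u)) ∈ XF F := by
  intro q hq w h
  refine hx q hq (w + u) fun v => ?_
  rw [← add_assoc]
  exact h v

/-- The positive answer to Q1: every SFT that is avo for convex sets is SFT on convex sets. -/
theorem result (d : ℕ) (A : Type) [Finite A] (X : Set (Cfg d A)) (hX : IsSFT X)
    (hA : AvoConvex X) : SFTOnConvex X := by
  classical
  obtain ⟨F0, hF0, rfl⟩ := hX
  obtain ⟨N, hN⟩ := hA
  set X := XF F0 with hXdef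
  -- all patterns with support inside `N ∪ {0}` that are not globally valid
  let F1 : Set (Pattern d A) := {q | q.D ⊆ insert 0 N ∧ ¬ GloballyValid X q}
  have hF1 : F1.Finite := by
    have h1 : Set.Finite {q : Pattern d A | q.D ∈ (insert 0 N).powerset} := by
      have : {q : Pattern d A | q.D ∈ (insert 0 N).powerset} ⊆
          ⋃ D ∈ (insert 0 N).powerset, Set.range fun p : D → A => (⟨D, p⟩ : Pattern d A) := by
        rintro ⟨D, p⟩ hq
        exact Set.mem_biUnion hq ⟨p, rfl⟩
      refine Set.Finite.subset ?_ this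
      exact Set.Finite.biUnion (Finset.finite_toSet _) fun D _ => Set.finite_range _
    exact h1.subset fun q hq => Finset.mem_powerset.2 hq.1
  refine ⟨F0 ∪ F1, hF0.union hF1, ?_, ?_⟩
  · ext x
    constructor
    · intro hx q hq u h
      rcases hq with hq | hq
      · exact hx q hq u h
      · exact hq.2 ⟨_, shift_mem hx u, h⟩
    · intro hx q hq u h
      exact hx q (Or.inl hq) u h
  · -- induction on the size of the support
    have key : ∀ (n : ℕ) (p : Pattern d A), p.D.card = n → IsConvex (p.D : Set (V d)) →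
        LocallyValid (F0 ∪ F1) p → GloballyValid X p := by
      intro n
      induction n with
      | zero =>
        intro p hp _ hl
        by_contra hg
        have hD : p.D = ∅ := Finset.card_eq_zero.1 hp
        refine hl p (Or.inr ⟨by rw [hD]; exact Finset.empty_subset _, hg⟩) 0 fun v => ?_
        exact absurd v.2 (by simp [hD])
      | succ n ih =>
        intro p hp hc hl
        have hne : (p.D : Set (V d)).Nonempty := by
          rw [Finset.coe_nonempty, ← Finset.card_pos]; omega
        obtain ⟨v, hv, hcv⟩ := exists_remove _ p.D.finite_toSet hc hne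
        have hv' : v ∈ p.D := hv
        let p' : Pattern d A := ⟨p.D.erase v, fun w => p.p ⟨w.1, Finset.mem_of_mem_erase w.2⟩⟩
        have hp'D : (p'.D : Set (V d)) = (p.D : Set (V d)) \ {v} := Finset.coe_erase _ _
        have hl' : LocallyValid (F0 ∪ F1) p' := by
          intro q hq u h
          refine hl q hq u fun w => ?_
          obtain ⟨h1, h2⟩ := h w
          exact ⟨Finset.mem_of_mem_erase h1, h2⟩
        obtain ⟨x, hx, hxp⟩ := ih p' (by
          show (p.D.erase v).card = n
          rw [Finset.card_erase_of_mem hv', hp]; rfl) (by rw [hp'D]; exact hcv) hl'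
        have hE := hN ((p.D : Set (V d)) \ {v}) v (p.D.finite_toSet.sdiff) hcv
          (fun h => h.2 rfl) (by
            have : (p.D : Set (V d)) \ {v} ∪ {v} = p.D := Set.sdiff_union_of_subset
              (Set.singleton_subset_iff.2 hv)
            rw [this]; exact hc) x hx
        -- the local window is globally valid
        have hmem : p.p ⟨v, hv'⟩ ∈ Ext X x (((p.D : Set (V d)) \ {v}) ∩
            {w | ∃ n ∈ N, w = v + n}) v := by
          let q : Pattern d A := ⟨(insert 0 N).filter fun w => w + v ∈ p.D,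
            fun w => p.p ⟨w.1 + v, (Finset.mem_filter.1 w.2).2⟩⟩
          have hq : GloballyValid X q := by
            by_contra hg
            refine hl q (Or.inr ⟨Finset.filter_subset _ _, hg⟩) v fun w => ?_
            exact ⟨(Finset.mem_filter.1 w.2).2, rfl⟩
          obtain ⟨y, hy, hyq⟩ := hq
          refine ⟨fun w => y (w + -v), shift_mem hy (-v), ?_, ?_⟩
          · rintro w ⟨⟨hw1, hw2⟩, n, hn, rfl⟩
            have hw2' : v + n ≠ v := hw2
            have hmq : n ∈ q.D := Finset.mem_filter.2 ⟨Finset.mem_insert_of_mem hn, by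
              rw [add_comm]; exact hw1⟩
            have h1 := hyq ⟨n, hmq⟩
            have h2 := hxp ⟨v + n, Finset.mem_erase.2 ⟨hw2', hw1⟩⟩
            show y (v + n + -v) = x (v + n)
            rw [h2, show v + n + -v = n by abel, h1]
            show p.p _ = p.p _
            congr 1
            exact Subtype.ext (add_comm _ _)
          · have hmq : (0 : V d) ∈ q.D := Finset.mem_filter.2 ⟨Finset.mem_insert_self _ _, by
              rw [zero_add]; exact hv'⟩
            have h1 := hyq ⟨0, hmq⟩
            show y (v + -v) = _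
            rw [show v + -v = 0 by abel, h1]
            show p.p _ = p.p _
            congr 1
            exact Subtype.ext (zero_add _)
        rw [← hE] at hmem
        obtain ⟨y, hy, hy1, hy2⟩ := hmem
        refine ⟨y, hy, fun w => ?_⟩
        by_cases hwv : w.1 = v
        · have : w = ⟨v, hv'⟩ := Subtype.ext hwv
          rw [this]; exact hy2
        · rw [hy1 w.1 ⟨w.2, hwv⟩]
          exact hxp ⟨w.1, Finset.mem_erase.2 ⟨hwv, w.2⟩⟩
    intro p hc hl
    exact key _ p rfl hc hl

end Pool.Agent.Results.MP_d66889_lc.ConvexAvoshifts
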